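import Mathlib
import Pool.Agent.N328.LF.Defs

/-!
Project LF: one random permutation, many points of `A` going to `B`.
-/

set_option autoImplicit false

namespace Pool.Agent.N286.LF

open Finset

/-- the permutations which send `R` into `B` -/
def good {N : ℕ} (B R : Finset (Fin N)) : Finset (Equiv.Perm (Fin N)) :=
  univ.filter (fun σ => ∀ i ∈ R, σ i ∈ B)

theorem good_swap {N : ℕ} (B R : Finset (Fin N)) (a y : Fin N) (ha : a ∉ R) (hy : y ∉ R) :
    (good B (insert a R)).card = ((good B R).filter (fun σ => σ y ∈ B)).card := by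
  refine Finset.card_bij' (fun σ _ => σ * Equiv.swap a y) (fun σ _ => σ * Equiv.swap a y)
    ?_ ?_ ?_ ?_
  · intro σ hσ
    simp only [good, mem_filter, mem_univ, true_and, mem_insert, forall_eq_or_imp] at hσ ⊢
    refine ⟨fun i hi => ?_, ?_⟩
    · have h1 : i ≠ a := fun h => ha (h ▸ hi)
      have h2 : i ≠ y := fun h => hy (h ▸ hi)
      rw [Equiv.Perm.mul_apply, Equiv.swap_apply_of_ne_of_ne h1 h2]
      exact hσ.2 i hi
    · rw [Equiv.Perm.mul_apply, Equiv.swap_apply_right]
      exact hσ.1
  · intro σ hσ
    simp only [good, mem_filter, mem_univ, true_and, mem_insert, forall_eq_or_imp] at hσ ⊢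
    refine ⟨?_, fun i hi => ?_⟩
    · rw [Equiv.Perm.mul_apply, Equiv.swap_apply_left]
      exact hσ.2
    · have h1 : i ≠ a := fun h => ha (h ▸ hi)
      have h2 : i ≠ y := fun h => hy (h ▸ hi)
      rw [Equiv.Perm.mul_apply, Equiv.swap_apply_of_ne_of_ne h1 h2]
      exact hσ.1 i hi
  · intro σ _
    simp [mul_assoc]
  · intro σ _
    simp [mul_assoc]

theorem good_count {N : ℕ} (B R : Finset (Fin N)) (a : Fin N) (ha : a ∉ R) :
    Rᶜ.card * (good B (insert a R)).card + R.card * (good B R).card =
      B.card * (good B R).card := by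
  have h1 : Rᶜ.card * (good B (insert a R)).card =
      ∑ y ∈ Rᶜ, ((good B R).filter (fun σ => σ y ∈ B)).card := by
    rw [← smul_eq_mul, ← Finset.sum_const]
    refine Finset.sum_congr rfl fun y hy => ?_
    exact good_swap B R a y ha (by simpa using hy)
  have h2 : ∑ y ∈ Rᶜ, ((good B R).filter (fun σ => σ y ∈ B)).card =
      ∑ σ ∈ good B R, (Rᶜ.filter (fun y => σ y ∈ B)).card := by
    simp only [Finset.card_filter]
    exact Finset.sum_comm
  have h3 : ∀ σ ∈ good B R, (Rᶜ.filter (fun y => σ y ∈ B)).card + R.card = B.card := by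
    intro σ hσ
    simp only [good, mem_filter, mem_univ, true_and] at hσ
    have h4 : R.filter (fun y => σ y ∈ B) = R := Finset.filter_true_of_mem hσ
    have h5 : (Rᶜ.filter (fun y => σ y ∈ B)).card + (R.filter (fun y => σ y ∈ B)).card =
        (univ.filter (fun y => σ y ∈ B)).card := by
      rw [← Finset.card_union_of_disjoint, ← Finset.filter_union]
      · congr 1
        rw [Finset.union_comm, Finset.union_compl]
      · exact Finset.disjoint_filter_filter (disjoint_compl_left)
    rw [h4] at h5
    rw [h5]
    refine Finset.card_bij' (fun y _ => σ y) (fun y _ => σ.symm y) ?_ ?_ ?_ ?_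
    · intro y hy
      simpa using hy
    · intro y hy
      simpa using hy
    · intro y _; simp
    · intro y _; simp
  rw [h1, h2, mul_comm R.card, mul_comm B.card, ← smul_eq_mul, ← smul_eq_mul, ← Finset.sum_const,
    ← Finset.sum_const, ← Finset.sum_add_distrib]
  exact Finset.sum_congr rfl h3

theorem good_step {N : ℕ} (B R : Finset (Fin N)) (a : Fin N) (ha : a ∉ R) :
    (good B (insert a R)).card * N ≤ B.card * (good B R).card := by
  have h1 := good_count B R a ha
  have h2 : Rᶜ.card + R.card = N := by
    rw [Finset.card_compl_add_card, Fintype.card_fin]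
  have h3 : B.card ≤ Rᶜ.card + R.card := by
    rw [h2]
    calc B.card ≤ (univ : Finset (Fin N)).card := Finset.card_le_univ B
      _ = N := by simp
  have h4 : 0 < Rᶜ.card := Finset.card_pos.2 ⟨a, by simpa using ha⟩
  have h5 : (good B (insert a R)).card * (Rᶜ.card + R.card) ≤ B.card * (good B R).card := by
    generalize Rᶜ.card = m at h1 h2 h3 h4 ⊢
    generalize R.card = r at h1 h2 h3 h4 ⊢
    generalize B.card = b at h1 h2 h3 h4 ⊢
    generalize (good B (insert a R)).card = x at h1 h2 h3 h4 ⊢
    generalize (good B R).card = f at h1 h2 h3 h4 ⊢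
    refine Nat.le_of_mul_le_mul_left ?_ h4
    have h6 : r * f * b ≤ r * f * (m + r) := Nat.mul_le_mul_left _ h3
    zify at h1 h6 ⊢
    nlinarith
  rwa [h2] at h5

theorem good_le {N : ℕ} (B R : Finset (Fin N)) :
    (good B R).card * N ^ R.card ≤ B.card ^ R.card * N.factorial := by
  induction R using Finset.induction_on with
  | empty =>
    simp only [good, notMem_empty, false_imp_iff, implies_true, filter_true, card_empty, pow_zero,
      mul_one, one_mul]
    rw [Finset.card_univ, Fintype.card_perm, Fintype.card_fin]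
  | insert a R ha ih =>
    have h1 := good_step B R a ha
    rw [Finset.card_insert_of_notMem ha, pow_succ, pow_succ]
    calc (good B (insert a R)).card * (N ^ R.card * N)
        = (good B (insert a R)).card * N * N ^ R.card := by ring
      _ ≤ B.card * (good B R).card * N ^ R.card := Nat.mul_le_mul_right _ h1
      _ = B.card * ((good B R).card * N ^ R.card) := by ring
      _ ≤ B.card * (B.card ^ R.card * N.factorial) := Nat.mul_le_mul_left _ ih
      _ = B.card ^ R.card * B.card * N.factorial := by ring

/-- LF/U1: one random permutation, many points of `A` going to `B`. -/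
theorem u1 (N : ℕ) (A B : Finset (Fin N)) (r : ℕ) :
    (univ.filter (fun σ : Equiv.Perm (Fin N) => r ≤ (A.filter (fun i => σ i ∈ B)).card)).card *
      N ^ r ≤ A.card.choose r * B.card ^ r * N.factorial := by
  have h1 : (univ.filter (fun σ : Equiv.Perm (Fin N) =>
      r ≤ (A.filter (fun i => σ i ∈ B)).card)) ⊆
      (A.powersetCard r).biUnion (fun R => good B R) := by
    intro σ hσ
    simp only [mem_filter, mem_univ, true_and] at hσ
    obtain ⟨R, hR, hRc⟩ := Finset.exists_subset_card_eq hσ
    rw [mem_biUnion]
    refine ⟨R, mem_powersetCard.2 ⟨hR.trans (filter_subset _ _), hRc⟩, ?_⟩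
    simp only [good, mem_filter, mem_univ, true_and]
    intro i hi
    exact (mem_filter.1 (hR hi)).2
  calc (univ.filter (fun σ : Equiv.Perm (Fin N) =>
          r ≤ (A.filter (fun i => σ i ∈ B)).card)).card * N ^ r
      ≤ (∑ R ∈ A.powersetCard r, (good B R).card) * N ^ r :=
        Nat.mul_le_mul_right _ ((Finset.card_le_card h1).trans Finset.card_biUnion_le)
    _ = ∑ R ∈ A.powersetCard r, (good B R).card * N ^ r := Finset.sum_mul _ _ _
    _ ≤ ∑ R ∈ A.powersetCard r, B.card ^ r * N.factorial := by
        refine Finset.sum_le_sum fun R hR => ?_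
        have h2 := good_le B R
        rwa [(mem_powersetCard.1 hR).2] at h2
    _ = A.card.choose r * B.card ^ r * N.factorial := by
        rw [Finset.sum_const, Finset.card_powersetCard, smul_eq_mul, mul_assoc]

end Pool.Agent.N286.LF
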